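import Pool.Agent.H744.Vo.VoA

set_option autoImplicit false

namespace Pool.Agent.H744.Vo

section alg

variable {V : Type} [AddCommGroup V] [Module (ZMod 2) V]

lemma zmod2_cases (a : ZMod 2) : a = 0 ∨ a = 1 := by
  revert a; decide

lemma indep2 {c d : V} (hc : c ≠ 0) (hd : d ≠ 0) (hcd : c ≠ d) (α β : ZMod 2)
    (h : α • c + β • d = 0) : α = 0 ∧ β = 0 := by
  rcases zmod2_cases α with rfl | rfl <;> rcases zmod2_cases β with rfl | rfl
  · exact ⟨rfl, rfl⟩
  · simp only [zero_smul, one_smul, zero_add] at h; exact absurd h hd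
  · simp only [zero_smul, one_smul, add_zero] at h; exact absurd h hc
  · simp only [one_smul] at h; exact absurd (add_eq_zero_iff'.mp h) hcd

lemma indep3 {c d v : V} (hc : c ≠ 0) (hd : d ≠ 0) (hcd : c ≠ d) (h0 : v ≠ 0) (h1 : v ≠ c)
    (h2 : v ≠ d) (h3 : v ≠ c + d) (α β γ : ZMod 2)
    (h : α • c + β • d + γ • v = 0) : α = 0 ∧ β = 0 ∧ γ = 0 := by
  rcases zmod2_cases γ with rfl | rfl
  · rw [zero_smul, add_zero] at h
    obtain ⟨a, b⟩ := indep2 hc hd hcd α β h
    exact ⟨a, b, rfl⟩
  · exfalso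
    rw [one_smul, add_eq_zero_iff'] at h
    rcases zmod2_cases α with rfl | rfl <;> rcases zmod2_cases β with rfl | rfl
    · simp only [zero_smul, add_zero] at h; exact h0 h.symm
    · simp only [zero_smul, one_smul, zero_add] at h; exact h2 h.symm
    · simp only [zero_smul, one_smul, add_zero] at h; exact h1 h.symm
    · simp only [one_smul] at h; exact h3 h.symm

/-- The defect structure. -/
structure Defect (D : V → V → V) : Prop where
  symm : ∀ c d, D c d = D d c
  right : ∀ c d, D c (c + d) = D c d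
  coc : ∀ c d e, D c d + D (c + d) e + D d e + D c (d + e) = 0
  zero : ∀ d, D 0 d = 0

def Good (D : V → V → V) (c d : V) : Prop := ∃ α β : ZMod 2, D c d = α • c + β • d

lemma Defect.self {D : V → V → V} (hD : Defect D) (c : V) : D c c = 0 := by
  have := hD.right c 0
  rw [add_zero] at this
  rw [this, hD.symm, hD.zero]

lemma Good.symm {D : V → V → V} (hD : Defect D) {c d : V} (h : Good D c d) : Good D d c := by
  obtain ⟨α, β, h⟩ := h
  exact ⟨β, α, by rw [hD.symm, h, add_comm]⟩

theorem fano {D : V → V → V} (hD : Defect D) {c d v : V} (hc : c ≠ 0) (hd : d ≠ 0) (hcd : c ≠ d)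
    (h0 : v ≠ 0) (h1 : v ≠ c) (h2 : v ≠ d) (h3 : v ≠ c + d)
    (g1 : Good D c v) (g2 : Good D d v) (g3 : Good D (c + d) v)
    (g4 : Good D c (d + v)) (g5 : Good D d (c + v)) (g6 : Good D (c + d) (c + v)) :
    Good D c d := by
  obtain ⟨a1, b1, g1⟩ := g1
  obtain ⟨a2, b2, g2⟩ := g2
  obtain ⟨a3, b3, g3⟩ := g3
  obtain ⟨a4, b4, g4⟩ := g4
  obtain ⟨a5, b5, g5⟩ := g5
  obtain ⟨a6, b6, g6⟩ := g6
  -- auxiliary identities in V
  have dd : ∀ x : V, x + x = 0 := self_add
  have e1 : d + v + (c + v) = c + d := by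
    have : d + v + (c + v) = c + d + (v + v) := by abel
    rw [this, dd, add_zero]
  have e2 : c + (d + (c + v)) = d + v := by
    have : c + (d + (c + v)) = (c + c) + (d + v) := by abel
    rw [this, dd, zero_add]
  -- D values
  have k6 : D (d + v) (c + v) = D (c + d) (c + v) := by
    rw [hD.symm (d + v), hD.symm (c + d), ← hD.right (c + v) (d + v)]
    congr 1
    rw [add_comm, e1]
  -- relation avoiding v
  have Rv := hD.coc c d (c + v)
  have k4 : D c (d + (c + v)) = D c (d + v) := by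
    have : d + (c + v) = c + (d + v) := by abel
    rw [this, hD.right]
  rw [k4] at Rv
  -- relation avoiding c
  have Rc := hD.coc v d (c + v)
  have k2 : D v d = D d v := hD.symm _ _
  have k3 : D v (d + (c + v)) = D (c + d) v := by
    have : d + (c + v) = v + (c + d) := by abel
    rw [this, hD.right, hD.symm]
  have k6' : D (v + d) (c + v) = D (c + d) (c + v) := by rw [add_comm v d, k6]
  rw [k2, k3, k6'] at Rc
  -- relation avoiding d
  have Rd := hD.coc v c (d + v)
  have k1 : D v c = D c v := hD.symm _ _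
  have k3' : D v (c + (d + v)) = D (c + d) v := by
    have : c + (d + v) = v + (c + d) := by abel
    rw [this, hD.right, hD.symm]
  have k6'' : D (v + c) (d + v) = D (c + d) (c + v) := by
    rw [add_comm v c, hD.symm, k6]
  rw [k1, k3', k6''] at Rd
  rw [g2, g6, g5, g3] at Rc
  rw [g1, g6, g4, g3] at Rd
  rw [g6, g5, g4] at Rv
  have Rc' : (a3 + b5 + a6 + b6) • c + (a2 + a3 + a5 + a6) • d + (b2 + b3 + b5 + b6) • v = 0 := by
    rw [← Rc]; module
  have Rd' : (a1 + a3 + a4 + a6 + b6) • c + (a3 + b4 + a6) • d + (b1 + b3 + b4 + b6) • v = 0 := by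
    rw [← Rd]; module
  obtain ⟨x1, -, -⟩ := indep3 hc hd hcd h0 h1 h2 h3 _ _ _ Rc'
  obtain ⟨-, x2, -⟩ := indep3 hc hd hcd h0 h1 h2 h3 _ _ _ Rd'
  have x3 : b4 + b5 + b6 = 0 := by
    revert x1 x2
    generalize a3 = p; generalize b5 = q; generalize a6 = r; generalize b6 = s; generalize b4 = t
    revert p q r s t
    decide
  refine ⟨a4 + b5 + a6 + b6, b4 + a5 + a6, ?_⟩
  have hDcd : D c d = ((a6 • (c + d) + b6 • (c + v)) + (a5 • d + b5 • (c + v)) +
      (a4 • c + b4 • (d + v))) := by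
    have h := Rv
    rw [add_assoc, add_assoc, add_eq_zero_iff'] at h
    rw [h]; abel
  rw [hDcd]
  have : (a6 • (c + d) + b6 • (c + v)) + (a5 • d + b5 • (c + v)) + (a4 • c + b4 • (d + v)) =
      (a4 + b5 + a6 + b6) • c + (b4 + a5 + a6) • d + (b4 + b5 + b6) • v := by module
  rw [this, x3, zero_smul, add_zero]

end alg

end Pool.Agent.H744.Vo
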