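import Pool.Agent.H744.Vo.VoD

set_option autoImplicit false

namespace Pool.Agent.H744.Vo

/-- well-founded induction along a real valued function with finite sublevel sets -/
theorem induction_real {α : Type} (S : α → ℝ) (hS : ∀ C : ℝ, {x | S x < C}.Finite)
    {P : α → Prop} (h : ∀ x, (∀ y, S y < S x → P y) → P x) : ∀ x, P x := by
  have hlt : ∀ x y, S x < S y → (hS (S x)).toFinset.card < (hS (S y)).toFinset.card := by
    intro x y hxy
    apply Finset.card_lt_card
    rw [Finset.ssubset_iff_of_subset]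
    · refine ⟨x, ?_, ?_⟩
      · simp only [Set.Finite.mem_toFinset, Set.mem_ofPred_eq]; exact hxy
      · simp only [Set.Finite.mem_toFinset, Set.mem_ofPred_eq]; exact lt_irrefl _
    · intro z hz
      simp only [Set.Finite.mem_toFinset, Set.mem_ofPred_eq] at hz ⊢
      exact lt_trans hz hxy
  have : ∀ n : ℕ, ∀ x, (hS (S x)).toFinset.card = n → P x := by
    intro n
    induction n using Nat.strong_induction_on with
    | _ n ih =>
      intro x hx
      apply h
      intro y hy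
      exact ih _ (hx ▸ hlt y x hy) y rfl
  intro x
  exact this _ x rfl

section defs

variable {L V : Type} [AddCommGroup L] [AddCommGroup V] [Module (ZMod 2) V] {Λ : Lat L V}
  (M : Λ.MinSys)

noncomputable def w1 (z : L) : L := Lat.half (z + M.y (Λ.pr z))
noncomputable def w2 (z : L) : L := w1 M z - M.y (Λ.pr z)

lemma w1_add (z : L) : w1 M z + w1 M z = z + M.y (Λ.pr z) := by
  unfold w1
  apply Λ.half_add
  rw [map_add, M.pr_y, self_add]

lemma w_sum (z : L) : w1 M z + w2 M z = z := by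
  unfold w2
  have := w1_add M z
  have e : w1 M z + (w1 M z - M.y (Λ.pr z)) = (w1 M z + w1 M z) - M.y (Λ.pr z) := by abel
  rw [e, this]; abel

lemma w_diff (z : L) : w1 M z - w2 M z = M.y (Λ.pr z) := by
  unfold w2; abel

lemma w_q (z : L) : Λ.q (w1 M z) + Λ.q (w2 M z) = (Λ.q z + M.f (Λ.pr z)) / 2 := by
  have e1 : Λ.q z = Λ.q (w1 M z) + Λ.q (w2 M z) + 2 * Λ.b (w1 M z) (w2 M z) := by
    rw [← Λ.q_add, w_sum]
  have e2 : M.f (Λ.pr z) = Λ.q (w1 M z) + Λ.q (w2 M z) - 2 * Λ.b (w1 M z) (w2 M z) := by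
    rw [← Λ.q_sub, w_diff]; rfl
  rw [e1, e2]; ring

lemma w1_lt {z : L} (h : M.f (Λ.pr z) < Λ.q z) : Λ.q (w1 M z) < Λ.q z := by
  have h1 := w_q M z
  have h2 := Λ.q_nonneg (w2 M z)
  linarith

lemma w2_lt {z : L} (h : M.f (Λ.pr z) < Λ.q z) : Λ.q (w2 M z) < Λ.q z := by
  have h1 := w_q M z
  have h2 := Λ.q_nonneg (w1 M z)
  linarith

lemma w1_neg (z : L) : w1 M (-z) = - w2 M z := by
  apply Λ.double_inj
  rw [w1_add]
  have h1 : Λ.pr (-z) = Λ.pr z := by rw [map_neg, neg_eq]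
  rw [h1]
  have h2 := w1_add M z
  unfold w2
  have e : -(w1 M z - M.y (Λ.pr z)) + -(w1 M z - M.y (Λ.pr z)) =
      -(w1 M z + w1 M z) + M.y (Λ.pr z) + M.y (Λ.pr z) := by abel
  rw [e, h2]; abel

lemma w2_neg (z : L) : w2 M (-z) = - w1 M z := by
  have h1 : Λ.pr (-z) = Λ.pr z := by rw [map_neg, neg_eq]
  have h2 := w_sum M (-z)
  have h3 := w_sum M z
  rw [w1_neg] at h2
  have h5 : w2 M (-z) = w2 M z + (-w2 M z + w2 M (-z)) := by abel
  rw [h5, h2]
  have h6 : w2 M z + -z = w2 M z + -(w1 M z + w2 M z) := by rw [h3]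
  rw [h6]; abel

end defs

/-- the map determined by the minimal vectors -/
noncomputable def Phi {L L' V : Type} [AddCommGroup L] [AddCommGroup L'] [AddCommGroup V]
    [Module (ZMod 2) V] {Λ : Lat L V} {Λ' : Lat L' V} (M : Λ.MinSys) (N : Λ'.MinSys) (z : L) :
    L' :=
  open Classical in
  if h : M.f (Λ.pr z) < Λ.q z then
    have _h1 : Λ.rk (w1 M z) < Λ.rk z := Λ.rk_lt (w1_lt M h)
    have _h2 : Λ.rk (w2 M z) < Λ.rk z := Λ.rk_lt (w2_lt M h)
    Phi M N (w1 M z) + Phi M N (w2 M z)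
  else if z = M.y (Λ.pr z) then N.y (Λ.pr z) else - N.y (Λ.pr z)
termination_by Λ.rk z

section two

variable {L L' V : Type} [AddCommGroup L] [AddCommGroup L'] [AddCommGroup V] [Module (ZMod 2) V]
  {Λ : Lat L V} {Λ' : Lat L' V} (M : Λ.MinSys) (N : Λ'.MinSys)

lemma Phi_rec {z : L} (h : M.f (Λ.pr z) < Λ.q z) :
    Phi M N z = Phi M N (w1 M z) + Phi M N (w2 M z) := by
  rw [Phi, dif_pos h]

lemma Phi_y (v : V) : Phi M N (M.y v) = N.y v := by
  have h : ¬ (M.f (Λ.pr (M.y v)) < Λ.q (M.y v)) := by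
    rw [M.pr_y]; exact lt_irrefl _
  rw [Phi, dif_neg h, M.pr_y, if_pos rfl]

lemma Phi_neg_y (v : V) : Phi M N (- M.y v) = - N.y v := by
  have h0 : Λ.pr (- M.y v) = v := by rw [map_neg, M.pr_y, neg_eq]
  have h : ¬ (M.f (Λ.pr (- M.y v)) < Λ.q (- M.y v)) := by
    rw [h0, Λ.q_neg]; exact lt_irrefl _
  rw [Phi, dif_neg h, h0]
  by_cases h1 : - M.y v = M.y v
  · rw [if_pos h1]
    have h2 : M.y v = 0 := by
      apply Λ.double_eq_zero
      nth_rw 1 [← h1]
      rw [neg_add_cancel]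
    have h3 : v = 0 := by rw [← M.pr_y v, h2, map_zero]
    rw [h3, N.y_zero, neg_zero]
  · rw [if_neg h1]

lemma Phi_neg (hum : M.UM) (z : L) : Phi M N (-z) = - Phi M N z := by
  apply Λ.induction_q (P := fun z => Phi M N (-z) = - Phi M N z)
  intro z ih
  by_cases h : M.f (Λ.pr z) < Λ.q z
  · have h1 : Λ.pr (-z) = Λ.pr z := by rw [map_neg, neg_eq]
    have h' : M.f (Λ.pr (-z)) < Λ.q (-z) := by rw [h1, Λ.q_neg]; exact h
    rw [Phi_rec M N h', Phi_rec M N h, w1_neg, w2_neg, ih _ (w1_lt M h), ih _ (w2_lt M h)]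
    abel
  · rcases hum z (not_lt.mp h) with h1 | h1
    · rw [h1, Phi_neg_y, Phi_y]
    · rw [h1, neg_neg, Phi_neg_y, Phi_y, neg_neg]

/-- all three edges minimal -/
lemma Phi_base (hT : ∀ c d, N.T c d = M.T c d) {u v w : L} (h : u + v + w = 0)
    (hu : u = M.y (Λ.pr u) ∨ u = - M.y (Λ.pr u))
    (hv : v = M.y (Λ.pr v) ∨ v = - M.y (Λ.pr v))
    (hw : w = M.y (Λ.pr w) ∨ w = - M.y (Λ.pr w)) :
    Phi M N u + Phi M N v + Phi M N w = 0 := by
  set a := Λ.pr u with ha
  set b := Λ.pr v with hb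
  set c := Λ.pr w with hc
  have habc : c = a + b := by
    have h1 : a + b + c = 0 := by rw [ha, hb, hc, ← map_add, ← map_add, h, map_zero]
    exact (add_eq_zero_iff'.mp h1).symm
  -- transfer
  have tr : ∀ t : V, (t = 0 ∨ t = a ∨ t = b ∨ t = a + b) →
      M.y a + M.y b + M.y (a + b) = M.y t + M.y t →
      N.y a + N.y b + N.y (a + b) = N.y t + N.y t := by
    intro t ht h1
    have h2 : M.hh a b = M.y t := hh_eq M h1.symm
    have h3 : M.T a b = t := by unfold Lat.MinSys.T; rw [h2, M.pr_y]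
    have h4 : N.hh a b = N.y t := hh_of_T N t ht (by rw [hT, h3])
    rw [← hh_add, h4]
  rw [← habc] at tr
  rcases hu with hu | hu <;> rcases hv with hv | hv <;> rcases hw with hw | hw
  · have h1 := tr 0 (Or.inl rfl) (by rw [M.y_zero, ← hu, ← hv, ← hw, h, add_zero])
    rw [N.y_zero, add_zero] at h1
    rw [hu, hv, hw, Phi_y, Phi_y, Phi_y, h1]
  · have e : M.y c = u + v := by
      have : M.y c = -w := by rw [hw, neg_neg]
      rw [this]; exact (eq_neg_of_add_eq_zero_left h).symm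
    have h1 := tr c (Or.inr (Or.inr (Or.inr rfl))) (by rw [← hu, ← hv, e])
    rw [hu, hv, hw, Phi_y, Phi_y, Phi_neg_y]
    have : N.y a + N.y b + -N.y c = (N.y a + N.y b + N.y c) - (N.y c + N.y c) := by abel
    rw [this, h1, sub_self]
  · have e : M.y b = u + w := by
      have : M.y b = -v := by rw [hv, neg_neg]
      rw [this]
      have h' : u + w + v = 0 := by rw [← h]; abel
      exact (eq_neg_of_add_eq_zero_left h').symm
    have h1 := tr b (Or.inr (Or.inr (Or.inl rfl))) (by rw [← hu, ← hw, e]; abel)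
    rw [hu, hv, hw, Phi_y, Phi_neg_y, Phi_y]
    have : N.y a + -N.y b + N.y c = (N.y a + N.y b + N.y c) - (N.y b + N.y b) := by abel
    rw [this, h1, sub_self]
  · have e : M.y a = M.y b + M.y c := by
      have : M.y a = u := hu.symm
      have hb' : M.y b = -v := by rw [hv, neg_neg]
      have hc' : M.y c = -w := by rw [hw, neg_neg]
      rw [this, hb', hc']
      have h' : u + (v + w) = 0 := by rw [← h]; abel
      rw [eq_neg_of_add_eq_zero_left h']; abel
    have h1 := tr a (Or.inr (Or.inl rfl)) (by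
      rw [add_assoc, ← e])
    rw [hu, hv, hw, Phi_y, Phi_neg_y, Phi_neg_y]
    have : N.y a + -N.y b + -N.y c = (N.y a + N.y a) - (N.y a + N.y b + N.y c) := by abel
    rw [this, h1, sub_self]
  · have e : M.y a = v + w := by
      have : M.y a = -u := by rw [hu, neg_neg]
      rw [this]
      have h' : v + w + u = 0 := by rw [← h]; abel
      exact (eq_neg_of_add_eq_zero_left h').symm
    have h1 := tr a (Or.inr (Or.inl rfl)) (by rw [← hv, ← hw, e]; abel)
    rw [hu, hv, hw, Phi_neg_y, Phi_y, Phi_y]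
    have : -N.y a + N.y b + N.y c = (N.y a + N.y b + N.y c) - (N.y a + N.y a) := by abel
    rw [this, h1, sub_self]
  · have e : M.y b = M.y a + M.y c := by
      have : M.y b = v := hv.symm
      have ha' : M.y a = -u := by rw [hu, neg_neg]
      have hc' : M.y c = -w := by rw [hw, neg_neg]
      rw [this, ha', hc']
      have h' : v + (u + w) = 0 := by rw [← h]; abel
      rw [eq_neg_of_add_eq_zero_left h']; abel
    have h1 := tr b (Or.inr (Or.inr (Or.inl rfl))) (by
      have : M.y a + M.y b + M.y c = M.y b + (M.y a + M.y c) := by abel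
      rw [this, ← e])
    rw [hu, hv, hw, Phi_neg_y, Phi_y, Phi_neg_y]
    have : -N.y a + N.y b + -N.y c = (N.y b + N.y b) - (N.y a + N.y b + N.y c) := by abel
    rw [this, h1, sub_self]
  · have e : M.y c = M.y a + M.y b := by
      have : M.y c = w := hw.symm
      have ha' : M.y a = -u := by rw [hu, neg_neg]
      have hb' : M.y b = -v := by rw [hv, neg_neg]
      rw [this, ha', hb']
      have h' : w + (u + v) = 0 := by rw [← h]; abel
      rw [eq_neg_of_add_eq_zero_left h']; abel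
    have h1 := tr c (Or.inr (Or.inr (Or.inr rfl))) (by
      rw [← e])
    rw [hu, hv, hw, Phi_neg_y, Phi_neg_y, Phi_y]
    have : -N.y a + -N.y b + N.y c = (N.y c + N.y c) - (N.y a + N.y b + N.y c) := by abel
    rw [this, h1, sub_self]
  · have h1 := tr 0 (Or.inl rfl) (by
      rw [M.y_zero, add_zero]
      have ha' : M.y a = -u := by rw [hu, neg_neg]
      have hb' : M.y b = -v := by rw [hv, neg_neg]
      have hc' : M.y c = -w := by rw [hw, neg_neg]
      rw [ha', hb', hc']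
      have : -u + -v + -w = -(u + v + w) := by abel
      rw [this, h, neg_zero])
    rw [N.y_zero, add_zero] at h1
    rw [hu, hv, hw, Phi_neg_y, Phi_neg_y, Phi_neg_y]
    have : -N.y a + -N.y b + -N.y c = -(N.y a + N.y b + N.y c) := by abel
    rw [this, h1, neg_zero]

/-- the subdivision step -/
lemma Phi_step (hum : M.UM) {u v w : L} (h : u + v + w = 0) (hw : M.f (Λ.pr w) < Λ.q w)
    (h1 : Λ.q u ≤ Λ.q w + Λ.q v) (h2 : Λ.q v ≤ Λ.q w + Λ.q u)
    (ih : ∀ a b c : L, a + b + c = 0 → Λ.q a + Λ.q b + Λ.q c < Λ.q u + Λ.q v + Λ.q w →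
      Phi M N a + Phi M N b + Phi M N c = 0) :
    Phi M N u + Phi M N v + Phi M N w = 0 := by
  -- generic subdivision
  have sub : ∀ p r : L, p + r = w → Phi M N w = Phi M N p + Phi M N r →
      Λ.q r + Λ.q (r + u) < Λ.q v + Λ.q w → Λ.q p + Λ.q (r + u) < Λ.q u + Λ.q w →
      Phi M N u + Phi M N v + Phi M N w = 0 := by
    intro p r hpr hPhi k1 k2
    have a1 := ih r u (-(r + u)) (by abel) (by rw [Λ.q_neg]; linarith)
    have a2 := ih p (r + u) v (by
      rw [← h, ← hpr]; abel) (by linarith)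
    rw [Phi_neg M N hum] at a1
    rw [hPhi]
    have : Phi M N u + Phi M N v + (Phi M N p + Phi M N r) =
      (Phi M N r + Phi M N u + -Phi M N (r + u)) +
      (Phi M N p + Phi M N (r + u) + Phi M N v) := by abel
    rw [this, a1, a2, add_zero]
  set y := M.y (Λ.pr w) with hy
  have hYf : Λ.q y = M.f (Λ.pr w) := rfl
  -- real quantities
  have p1 := w_sum M w
  have p2 := w_diff M w
  rw [← hy] at p2
  set p := w1 M w with hp
  set r := w2 M w with hr
  have hv : v = -(u + w) := by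
    have h' : v + (u + w) = 0 := by rw [← h]; abel
    exact eq_neg_of_add_eq_zero_left h'
  have qv : Λ.q v = Λ.q u + Λ.q w + 2 * Λ.b u w := by rw [hv, Λ.q_neg, Λ.q_add]
  have qw : Λ.q w = Λ.q p + Λ.q r + 2 * Λ.b p r := by rw [← Λ.q_add, p1]
  have qy : Λ.q y = Λ.q p + Λ.q r - 2 * Λ.b p r := by rw [← Λ.q_sub, p2]
  have bw : Λ.b u w = Λ.b u p + Λ.b u r := by rw [← Λ.add_right, p1]
  have qru : Λ.q (r + u) = Λ.q r + Λ.q u + 2 * Λ.b u r := by rw [Λ.q_add, Λ.symm r u]
  have qpu : Λ.q (p + u) = Λ.q p + Λ.q u + 2 * Λ.b u p := by rw [Λ.q_add, Λ.symm p u]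
  have hq1 := w1_lt M hw
  have hq2 := w2_lt M hw
  rw [← hp] at hq1
  rw [← hr] at hq2
  have hPhi := Phi_rec M N hw
  rw [← hp, ← hr] at hPhi
  have n1 := Λ.q_nonneg p
  have n2 := Λ.q_nonneg r
  have hlt : Λ.q y < Λ.q w := by rw [hYf]; exact hw
  by_cases c1 : Λ.q r + Λ.q (r + u) < Λ.q v + Λ.q w ∧ Λ.q p + Λ.q (r + u) < Λ.q u + Λ.q w
  · exact sub p r p1 hPhi c1.1 c1.2
  by_cases c2 : Λ.q p + Λ.q (p + u) < Λ.q v + Λ.q w ∧ Λ.q r + Λ.q (p + u) < Λ.q u + Λ.q w
  · exact sub r p (by rw [add_comm, p1]) (by rw [hPhi, add_comm]) c2.1 c2.2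
  exfalso
  rw [not_and_or, not_lt, not_lt] at c1 c2
  rcases c1 with c1 | c1 <;> rcases c2 with c2 | c2
  · nlinarith
  · nlinarith
  · nlinarith
  · nlinarith

/-- additivity, when the third edge is the longest -/
lemma Phi_max (hum : M.UM) (hT : ∀ c d, N.T c d = M.T c d) {u v w : L} (h : u + v + w = 0)
    (h1 : Λ.q u ≤ Λ.q w) (h2 : Λ.q v ≤ Λ.q w)
    (ih : ∀ a b c : L, a + b + c = 0 → Λ.q a + Λ.q b + Λ.q c < Λ.q u + Λ.q v + Λ.q w →
      Phi M N a + Phi M N b + Phi M N c = 0) :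
    Phi M N u + Phi M N v + Phi M N w = 0 := by
  have nu := Λ.q_nonneg u
  have nv := Λ.q_nonneg v
  have nw := Λ.q_nonneg w
  by_cases hw : M.f (Λ.pr w) < Λ.q w
  · exact Phi_step M N hum h hw (by linarith) (by linarith) ih
  have hw' := not_lt.mp hw
  have hle : Λ.q w ≤ Λ.q u + Λ.q v := by
    have e0 : w = -(u + v) := by
      have h' : w + (u + v) = 0 := by rw [← h]; abel
      exact eq_neg_of_add_eq_zero_left h'
    have e1 : Λ.pr (u - v) = Λ.pr w := by
      rw [e0, map_sub, map_neg, map_add, neg_eq, sub_eq_add']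
    have e2 := M.f_le' e1
    have e3 : Λ.q w = Λ.q (u + v) := by rw [e0, Λ.q_neg]
    rw [Λ.q_add] at e3
    rw [Λ.q_sub] at e2
    linarith
  by_cases hu : M.f (Λ.pr u) < Λ.q u
  · have := Phi_step M N hum (u := v) (v := w) (w := u) (by rw [← h]; abel) hu
      (by linarith) (by linarith) (fun a b c habc hlt => ih a b c habc (by linarith))
    rw [← this]; abel
  by_cases hv : M.f (Λ.pr v) < Λ.q v
  · have := Phi_step M N hum (u := u) (v := w) (w := v) (by rw [← h]; abel) hv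
      (by linarith) (by linarith) (fun a b c habc hlt => ih a b c habc (by linarith))
    rw [← this]; abel
  exact Phi_base M N hT h (hum u (not_lt.mp hu)) (hum v (not_lt.mp hv)) (hum w hw')

theorem Phi_add_zero (hum : M.UM) (hT : ∀ c d, N.T c d = M.T c d) :
    ∀ u v w : L, u + v + w = 0 → Phi M N u + Phi M N v + Phi M N w = 0 := by
  have hS : ∀ C : ℝ, {p : L × L | Λ.q p.1 + Λ.q p.2 + Λ.q (p.1 + p.2) < C}.Finite := by
    intro C
    apply Set.Finite.subset ((Λ.fin C).prod (Λ.fin C))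
    rintro ⟨x, y⟩ hp
    simp only [Set.mem_ofPred_eq, Set.mem_prod] at hp ⊢
    have n1 := Λ.q_nonneg x
    have n2 := Λ.q_nonneg y
    have n3 := Λ.q_nonneg (x + y)
    exact ⟨lt_of_le_of_lt (by show Λ.q x ≤ _; linarith) hp,
      lt_of_le_of_lt (by show Λ.q y ≤ _; linarith) hp⟩
  have main : ∀ p : L × L, Phi M N p.1 + Phi M N p.2 + Phi M N (-(p.1 + p.2)) = 0 := by
    apply induction_real (fun p : L × L => Λ.q p.1 + Λ.q p.2 + Λ.q (p.1 + p.2)) hS
      (P := fun p : L × L => Phi M N p.1 + Phi M N p.2 + Phi M N (-(p.1 + p.2)) = 0)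
    rintro ⟨u, v⟩ ih
    simp only at ih ⊢
    have ih' : ∀ a b c : L, a + b + c = 0 →
        Λ.q a + Λ.q b + Λ.q c < Λ.q u + Λ.q v + Λ.q (u + v) →
        Phi M N a + Phi M N b + Phi M N c = 0 := by
      intro a b c habc hlt
      have hc : c = -(a + b) := by
        have h' : c + (a + b) = 0 := by rw [← habc]; abel
        exact eq_neg_of_add_eq_zero_left h'
      have := ih (a, b) (by simp only; rw [hc, Λ.q_neg] at hlt; exact hlt)
      simp only at this
      rw [hc]; exact this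
    set w := -(u + v) with hw
    have h : u + v + w = 0 := by rw [hw]; abel
    have qw : Λ.q w = Λ.q (u + v) := by rw [hw, Λ.q_neg]
    rw [← qw] at ih'
    by_cases c1 : Λ.q u ≤ Λ.q w ∧ Λ.q v ≤ Λ.q w
    · exact Phi_max M N hum hT h c1.1 c1.2 ih'
    by_cases c2 : Λ.q v ≤ Λ.q u ∧ Λ.q w ≤ Λ.q u
    · have := Phi_max M N hum hT (u := v) (v := w) (w := u) (by rw [← h]; abel) c2.1 c2.2
        (fun a b c habc hlt => ih' a b c habc (by linarith))
      rw [← this]; abel
    have c3 : Λ.q u ≤ Λ.q v ∧ Λ.q w ≤ Λ.q v := by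
      rw [not_and_or, not_le, not_le] at c1 c2
      rcases c1 with c1 | c1 <;> rcases c2 with c2 | c2
      · exact ⟨c2.le, by linarith⟩
      · linarith
      · exact ⟨c2.le, c1.le⟩
      · exact ⟨by linarith, c1.le⟩
    have := Phi_max M N hum hT (u := u) (v := w) (w := v) (by rw [← h]; abel) c3.1 c3.2
      (fun a b c habc hlt => ih' a b c habc (by linarith))
    rw [← this]; abel
  intro u v w h
  have hc : w = -(u + v) := by
    have h' : w + (u + v) = 0 := by rw [← h]; abel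
    exact eq_neg_of_add_eq_zero_left h'
  rw [hc]; exact main (u, v)

theorem Phi_add (hum : M.UM) (hT : ∀ c d, N.T c d = M.T c d) (u v : L) :
    Phi M N (u + v) = Phi M N u + Phi M N v := by
  have h := Phi_add_zero M N hum hT u v (-(u + v)) (by abel)
  rw [Phi_neg M N hum] at h
  exact (eq_of_sub_eq_zero (by rw [← h]; abel)).symm

theorem Phi_sub (hum : M.UM) (hT : ∀ c d, N.T c d = M.T c d) (u v : L) :
    Phi M N (u - v) = Phi M N u - Phi M N v := by
  rw [sub_eq_add_neg, Phi_add M N hum hT, Phi_neg M N hum, ← sub_eq_add_neg]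

theorem Phi_q (hum : M.UM) (hT : ∀ c d, N.T c d = M.T c d) (hf : ∀ v, N.f v = M.f v) (z : L) :
    Λ'.q (Phi M N z) = Λ.q z := by
  apply Λ.induction_q (P := fun z => Λ'.q (Phi M N z) = Λ.q z)
  intro z ih
  by_cases h : M.f (Λ.pr z) < Λ.q z
  · have e1 := ih _ (w1_lt M h)
    have e2 := ih _ (w2_lt M h)
    have e3 : Λ'.q (Phi M N (M.y (Λ.pr z))) = M.f (Λ.pr z) := by
      rw [Phi_y]; exact hf _
    rw [← w_diff, Phi_sub M N hum hT, Λ'.q_sub, e1, e2] at e3
    have e4 := w_q M z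
    have e5 : Λ'.q (Phi M N z) = Λ'.q (Phi M N (w1 M z)) + Λ'.q (Phi M N (w2 M z)) +
      2 * Λ'.b (Phi M N (w1 M z)) (Phi M N (w2 M z)) := by
      rw [Phi_rec M N h, Λ'.q_add]
    rw [e1, e2] at e5
    linarith
  · rcases hum z (not_lt.mp h) with h1 | h1
    · rw [h1, Phi_y]; exact hf _
    · rw [h1, Phi_neg_y, Λ'.q_neg, Λ.q_neg]; exact hf _

theorem Phi_inv (hum : M.UM) (humN : N.UM) (hT : ∀ c d, N.T c d = M.T c d) (z : L) :
    Phi N M (Phi M N z) = z := by
  apply Λ.induction_q (P := fun z => Phi N M (Phi M N z) = z)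
  intro z ih
  by_cases h : M.f (Λ.pr z) < Λ.q z
  · rw [Phi_rec M N h, Phi_add N M humN (fun c d => (hT c d).symm), ih _ (w1_lt M h),
      ih _ (w2_lt M h), w_sum]
  · rcases hum z (not_lt.mp h) with h1 | h1
    · rw [h1, Phi_y, Phi_y]
    · rw [h1, Phi_neg_y, Phi_neg_y]

/-- main abstract theorem -/
theorem exists_isometry [Finite V] (hum : M.UM) (hf : ∀ v, M.f v = N.f v) :
    ∃ e : L ≃+ L', ∀ z, Λ'.q (e z) = Λ.q z := by
  have hss := ss_of_um M hum
  obtain ⟨N', hN1, hN2⟩ := exists_matched M N hss hf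
  have hf' : ∀ v, N'.f v = M.f v := fun v => by rw [hN1, hf]
  have hssN : N'.SS := by
    intro a b ha hb hab
    rw [hf', hf', hf']; exact hss a b ha hb hab
  have humN : N'.UM := um_of_ss N' hssN
  refine ⟨⟨⟨Phi M N', Phi N' M, Phi_inv M N' hum humN hN2,
    Phi_inv N' M humN hum (fun c d => (hN2 c d).symm)⟩, Phi_add M N' hum hN2⟩, ?_⟩
  intro z
  exact Phi_q M N' hum hN2 hf' z

end two

end Pool.Agent.H744.Vo
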